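import Pool.Agent.helper33.GR2.Spec
import Pool.Agent.helper64.ILF.Region98

set_option autoImplicit false

open Complex Metric Set Filter Topology MeasureTheory
open MPS (om)
open PPS (pre TT fd)
open XPS (Df er dens tau)
open Pool.Agent.helper16.Multibrot

noncomputable section

namespace GR

theorem GL2F_ne0 (n : ℕ) (c : ℂ) (hn : 2 ≤ n)
    (hA : ¬ Pool.Agent.helper98.ILF.HasAttractingCycle (fun z : ℂ => z ^ n + c)) (j : ℕ)
    (hj : 1 ≤ j) : Z n c j ≠ 0 := by
  intro h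
  apply hA
  refine ⟨0, j, hj, h, ?_⟩
  obtain ⟨k, rfl⟩ : ∃ k, j = k + 1 := ⟨j - 1, by omega⟩
  have hd : ∀ m : ℕ, Differentiable ℂ ((fun z : ℂ => z ^ n + c)^[m]) := by
    intro m
    induction m with
    | zero => simp
    | succ m ih =>
      rw [Function.iterate_succ]
      exact ih.comp (by fun_prop)
  have h0 : HasDerivAt (fun z : ℂ => z ^ n + c) 0 0 := by
    have h1 := ((hasDerivAt_pow n (0 : ℂ)).add_const c)
    have h2 : (n : ℂ) * (0 : ℂ) ^ (n - 1) = 0 := by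
      rw [zero_pow (by omega), mul_zero]
    rwa [h2] at h1
  have h3 := ((hd k) ((fun z : ℂ => z ^ n + c) 0)).hasDerivAt.comp (0 : ℂ) h0
  rw [mul_zero] at h3
  rw [Function.iterate_succ]
  rw [h3.deriv]
  simp

theorem GL2F_mono (x X : ℝ) (hx : 1 ≤ x) (hX : x ≤ X) :
    (1 + Real.log X) * x ≤ X * (1 + Real.log x) := by
  have hx0 : 0 < x := by linarith
  have hX0 : 0 < X := by linarith
  have h1 : Real.log (X / x) ≤ X / x - 1 := Real.log_le_sub_one_of_pos (by positivity)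
  rw [Real.log_div hX0.ne' hx0.ne'] at h1
  have h2 : 0 ≤ Real.log x := Real.log_nonneg hx
  have h3 : 0 ≤ (X - x) * Real.log x := mul_nonneg (by linarith) h2
  have h4 : (Real.log X - Real.log x) * x ≤ X - x := by
    have := mul_le_mul_of_nonneg_right h1 hx0.le
    calc (Real.log X - Real.log x) * x ≤ (X / x - 1) * x := this
      _ = X - x := by field_simp
  nlinarith

theorem GL2F_SS (n : ℕ) (c : ℂ) (p : ℕ) (hp : 1 ≤ p) (hA : A n c 1 = 1) : 1 ≤ SS n c p := by
  unfold SS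
  have h1 : (1 : ℕ) ∈ Finset.Icc 1 p := Finset.mem_Icc.2 ⟨le_rfl, hp⟩
  have h2 : ‖A n c 1‖ / ‖A n c 1‖ ≤ ∑ j ∈ Finset.Icc 1 p, ‖A n c j‖ / ‖A n c 1‖ :=
    Finset.single_le_sum (f := fun j => ‖A n c j‖ / ‖A n c 1‖) (fun j _ => by positivity) h1
  have h3 : ∑ j ∈ Finset.Icc 1 p, ‖A n c j‖ / ‖A n c 1‖ ≤
      ∑ i ∈ Finset.Icc 1 p, ∑ j ∈ Finset.Icc 1 p, ‖A n c j‖ / ‖A n c i‖ :=
    Finset.single_le_sum (f := fun i => ∑ j ∈ Finset.Icc 1 p, ‖A n c j‖ / ‖A n c i‖)
      (fun i _ => Finset.sum_nonneg fun j _ => by positivity) h1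
  have h4 : ‖A n c 1‖ / ‖A n c 1‖ = 1 := by rw [hA, norm_one, div_one]
  linarith

/-- GL2F: THEOREM G' with the factor `1 + log SS`. -/
theorem GL2F (hCOR2 : COR2_stmt) (hLFZ : LFZ_stmt) (hLFD : LFD_stmt) (hBDM : BDM_stmt)
    (hNAT : NAT_stmt) (hCTB : NLF.CTB_stmt) (hNZ : NLF.NZ_stmt) (hLFI : NLF.LFI_stmt) :
    GL2_stmt := by
  obtain ⟨K₀, hK₀, hcore⟩ := hCOR2
  obtain ⟨C, hC, hlfd⟩ := hLFD
  refine ⟨max (K₀ * max C 80) 160, fun n hn c μ hμ p hp x hx hxj => ?_⟩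
  have hn2 : 2 ≤ n := hn
  obtain ⟨-, hLF, hpos, hnA⟩ := hLFI n c μ hn2 hμ
  have hM : c ∈ multibrot n := (Pool.Agent.helper64.ILF98.posArea_subset hn2
    (Pool.Agent.helper64.ILF98.lineField_mem ⟨μ, hμ⟩)).1
  have hb := hBDM n c hn2 hM
  have hne := GL2F_ne0 n c hn2 hnA
  have hac : NLF.CT μ c ≠ 0 := hNZ n c μ hn2 hLF hpos
  have hac0 : 0 < ‖NLF.CT μ c‖ := norm_pos_iff.2 hac
  have hac80 : ‖NLF.CT μ c‖ ≤ 80 := (hCTB μ hLF.meas hLF.bd hLF.supp).2.1 c
  have hlx : 0 ≤ Real.log x := Real.log_nonneg hx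
  have hSS1 : 1 ≤ SS n c p := GL2F_SS n c p (by omega) (hNAT n c hn2).2.2.2.2.2.2.1
  have hlSS : 0 ≤ Real.log (SS n c p) := Real.log_nonneg hSS1
  obtain ⟨L, hL⟩ : ∃ L, L = 1 + Real.log (SS n c p) := ⟨_, rfl⟩
  have hL1 : 1 ≤ L := by rw [hL]; linarith
  show ‖NLF.CT μ c‖ * x ≤ max (K₀ * max C 80) 160 * (1 + Real.log (SS n c p)) * (1 + Real.log x)
  rw [← hL]
  rcases lt_or_ge x 2 with hx2 | hx2
  · have h1 : (160 : ℝ) ≤ max (K₀ * max C 80) 160 := le_max_right _ _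
    calc ‖NLF.CT μ c‖ * x ≤ 80 * 2 := by gcongr
      _ ≤ max (K₀ * max C 80) 160 * 1 * 1 := by linarith
      _ ≤ max (K₀ * max C 80) 160 * L * (1 + Real.log x) := by
          have h2 : (0 : ℝ) ≤ max (K₀ * max C 80) 160 := by linarith
          gcongr
          linarith
  · -- the previous closest return
    obtain ⟨q, hq, hqmin⟩ := Finset.exists_min_image (Finset.Icc 1 (p - 1))
      (fun j => ‖Z n c j‖) ⟨1, by simp; omega⟩
    rw [Finset.mem_Icc] at hq
    have hZp : 0 < ‖Z n c p‖ := norm_pos_iff.2 (hne p (by omega))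
    have hZq : 0 < ‖Z n c q‖ := norm_pos_iff.2 (hne q hq.1)
    have hxq := hxj q hq.1 (by omega)
    have hXx : x ≤ X n c p q := by
      unfold X
      rw [le_div_iff₀ hZp]; exact hxq
    have h2pq : 2 * ‖Z n c p‖ ≤ ‖Z n c q‖ := by nlinarith
    have hc2 : ‖c‖ ≤ 2 := by
      have := hb 1
      rwa [(hNAT n c hn2).2.2.2.2.2.1] at this
    have hR : Ret n c p q :=
      { hn := hn2
        hc := hc2
        le2 := fun j _ _ => hb j
        ne0 := fun j h1 _ => hne j h1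
        q1 := hq.1
        qp := by omega
        mn := fun j h1 h2 => hqmin j (Finset.mem_Icc.2 ⟨h1, by omega⟩)
        lt := by linarith }
    obtain ⟨hR0, -, hX1, -, hA, -, -⟩ := (hNAT n c hn2).2.2.2.2.2.2.2.2.2.2 p q hR
    have hAp := hA p (by omega) (by omega)
    have hAq := hA q (by omega) (by omega)
    obtain ⟨ha0, hS⟩ := hLFZ n c μ hn2 hLF
    have hSp := hS p (by omega) (fun i h1 _ => hne i h1)
    have hSq := hS q hq.1 (fun i h1 _ => hne i h1)
    have hdq := hlfd n c μ hLF ha0 (Z n c p) (Z n c q) (hne p (by omega)) h2pq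
    have hC'1 : 80 ≤ max C 80 := le_max_right _ _
    have hC'2 : C ≤ max C 80 := le_max_left _ _
    have hκ : 1 ≤ max C 80 / ‖NLF.CT μ c‖ := by
      rw [one_le_div hac0]; linarith
    have hlX : 0 ≤ Real.log (X n c p q) := Real.log_nonneg hX1.le
    have key : S n c p - lam n c p q * S n c q = Z n c p / (A n c p * NLF.CT μ c) *
        (NLF.CT μ (Z n c p) / Z n c p - NLF.CT μ (Z n c q) / Z n c q) := by
      rw [hSp, hSq]
      unfold lam
      have e1 := hne p (by omega)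
      have e2 := hne q hq.1
      field_simp
    have hmain := hcore n hn c p q (max C 80 / ‖NLF.CT μ c‖) hR hκ (by
      rw [key, norm_mul, norm_div, norm_mul]
      calc ‖Z n c p‖ / (‖A n c p‖ * ‖NLF.CT μ c‖) *
            ‖NLF.CT μ (Z n c p) / Z n c p - NLF.CT μ (Z n c q) / Z n c q‖
          ≤ ‖Z n c p‖ / (‖A n c p‖ * ‖NLF.CT μ c‖) *
            (C * (1 + Real.log (‖Z n c q‖ / ‖Z n c p‖))) := by gcongr
        _ ≤ ‖Z n c p‖ / (‖A n c p‖ * ‖NLF.CT μ c‖) *
            (max C 80 * (1 + Real.log (‖Z n c q‖ / ‖Z n c p‖))) := by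
            have : 0 ≤ 1 + Real.log (‖Z n c q‖ / ‖Z n c p‖) := by
              have : 0 ≤ Real.log (‖Z n c q‖ / ‖Z n c p‖) := hlX
              linarith
            gcongr
        _ = max C 80 / ‖NLF.CT μ c‖ * (‖Z n c p‖ / ‖A n c p‖) *
            (1 + Real.log (X n c p q)) := by
            have hAp' : ‖A n c p‖ ≠ 0 := norm_ne_zero_iff.2 hAp
            unfold X
            field_simp)
    rw [← hL] at hmain
    have h5 : ‖NLF.CT μ c‖ * X n c p q ≤ K₀ * max C 80 * L * (1 + Real.log (X n c p q)) := by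
      calc ‖NLF.CT μ c‖ * X n c p q ≤ ‖NLF.CT μ c‖ *
            (K₀ * (max C 80 / ‖NLF.CT μ c‖) * (1 + Real.log (X n c p q)) * L) := by gcongr
        _ = K₀ * max C 80 * L * (1 + Real.log (X n c p q)) := by
            field_simp
    have h6 := GL2F_mono x (X n c p q) hx hXx
    have hX0 : 0 < X n c p q := by linarith
    have hL0 : 0 ≤ L := by linarith
    have hKC : 0 ≤ K₀ * max C 80 * L := by positivity
    have h7 : ‖NLF.CT μ c‖ * x ≤ K₀ * max C 80 * L * (1 + Real.log x) := by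
      have h8 : (‖NLF.CT μ c‖ * x) * X n c p q ≤
          (K₀ * max C 80 * L * (1 + Real.log x)) * X n c p q := by
        calc (‖NLF.CT μ c‖ * x) * X n c p q = (‖NLF.CT μ c‖ * X n c p q) * x := by ring
          _ ≤ (K₀ * max C 80 * L * (1 + Real.log (X n c p q))) * x := by gcongr
          _ = (K₀ * max C 80 * L) * ((1 + Real.log (X n c p q)) * x) := by ring
          _ ≤ (K₀ * max C 80 * L) * (X n c p q * (1 + Real.log x)) := by gcongr
          _ = (K₀ * max C 80 * L * (1 + Real.log x)) * X n c p q := by ring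
      exact le_of_mul_le_mul_right h8 hX0
    refine h7.trans ?_
    have : 0 ≤ 1 + Real.log x := by linarith
    gcongr
    exact le_max_left _ _

end GR
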